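import Mathlib

/-!
# Avoiding planar sets in pairs of coordinates: the core induction

`A j k ⊆ ℝ × ℝ` (`j ≠ k`) are measurable sets with `A k j` the transpose of `A j k`; `b j k` bounds the area of
`A j k`, and `β j > 0` bounds `∑ k, b j k`. We choose the coordinates one after the other, in the order of
decreasing `β`, such that no pair `(x j, x k)` lies in `A j k` and `∑ x k ^ 2` is controlled.
-/

set_option autoImplicit false
set_option linter.unusedVariables false
set_option linter.unusedSectionVars false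

namespace Pool.Agent.H168.CY

open MeasureTheory Finset
open scoped ENNReal

variable {ι : Type} [Fintype ι] [DecidableEq ι]

/-- the choice of one coordinate -/
lemma choose_one (U : Finset ι) (S : ι → Set (ℝ × ℝ)) (hS : ∀ k, MeasurableSet (S k))
    (b : ι → ℝ) (hb : ∀ k, 0 ≤ b k) (hSb : ∀ k ∈ U, volume (S k) ≤ ENNReal.ofReal (b k))
    (β : ℝ) (hβ : 0 < β) (hbβ : ∑ k ∈ U, b k ≤ β)
    (D : Set ℝ) (hD : MeasurableSet D) (s : ℝ) (hs : 0 < s)
    (hDs : volume D ≤ ENNReal.ofReal s)
    (a : ι → ℝ) (ha : ∀ k ∈ U, 0 ≤ a k) :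
    ∃ (x : ℝ) (f : ι → ℝ), x ^ 2 ≤ s ^ 2 ∧ x ∉ D ∧ (∀ k, 0 ≤ f k) ∧
      (∀ k ∈ U, volume (Prod.mk x ⁻¹' S k) ≤ ENNReal.ofReal (f k)) ∧
      ∑ k ∈ U, f k ^ 2 ≤ (2 * β / s) ^ 2 ∧
      ∑ k ∈ U, 2 * a k * f k ≤ (2 / s) * ∑ k ∈ U, 2 * a k * b k := by
  -- the slices
  set l : ι → ℝ → ℝ≥0∞ := fun k x => volume (Prod.mk x ⁻¹' S k) with hl
  have hlm : ∀ k, Measurable (l k) := fun k => measurable_measure_prodMk_left (hS k)
  have hlint : ∀ k, ∫⁻ x, l k x = volume (S k) := by
    intro k
    rw [Measure.volume_eq_prod, Measure.prod_apply (hS k)]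
  set R : ℝ → ℝ≥0∞ := fun x => ∑ k ∈ U, l k x with hR
  have hRm : Measurable R := Finset.measurable_sum _ fun k _ => hlm k
  have hRint : ∫⁻ x, R x ≤ ENNReal.ofReal β := by
    rw [hR, lintegral_finsetSum _ fun k _ => hlm k]
    calc ∑ k ∈ U, ∫⁻ x, l k x = ∑ k ∈ U, volume (S k) := Finset.sum_congr rfl fun k _ => hlint k
      _ ≤ ∑ k ∈ U, ENNReal.ofReal (b k) := Finset.sum_le_sum hSb
      _ = ENNReal.ofReal (∑ k ∈ U, b k) := (ENNReal.ofReal_sum_of_nonneg fun k _ => hb k).symm
      _ ≤ ENNReal.ofReal β := ENNReal.ofReal_le_ofReal hbβ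
  set ρ : ℝ := 2 * β / s with hρ
  have hρ0 : 0 < ρ := by positivity
  set E : Set ℝ := {x | ENNReal.ofReal ρ ≤ R x} with hE
  have hEm : MeasurableSet E := measurableSet_le measurable_const hRm
  have hEvol : volume E ≤ ENNReal.ofReal (s / 2) := by
    have h1 : ENNReal.ofReal ρ * volume E ≤ ENNReal.ofReal β :=
      (mul_meas_ge_le_lintegral₀ hRm.aemeasurable (ENNReal.ofReal ρ)).trans hRint
    have h2 : volume E ≤ ENNReal.ofReal β / ENNReal.ofReal ρ := by
      rw [ENNReal.le_div_iff_mul_le (Or.inl (by simpa using hρ0)) (Or.inl ENNReal.ofReal_ne_top),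
        mul_comm]
      exact h1
    refine h2.trans (le_of_eq ?_)
    rw [← ENNReal.ofReal_div_of_pos hρ0]
    congr 1
    rw [hρ]
    field_simp
  set G : Set ℝ := Set.Icc (-s) s \ (D ∪ E) with hG
  have hGvol : ENNReal.ofReal (s / 2) ≤ volume G := by
    have h1 : volume (Set.Icc (-s) s) ≤ volume G + volume (D ∪ E) := by
      rw [hG]
      exact (measure_mono (by intro y hy; by_cases h : y ∈ D ∪ E
                              · exact Or.inr h
                              · exact Or.inl ⟨hy, h⟩)).trans (measure_union_le _ _)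
    rw [Real.volume_Icc] at h1
    have h2 : volume (D ∪ E) ≤ ENNReal.ofReal (s + s / 2) := by
      refine (measure_union_le _ _).trans ?_
      rw [ENNReal.ofReal_add hs.le (by positivity)]
      exact add_le_add hDs hEvol
    have h3 : ENNReal.ofReal (s - -s) = ENNReal.ofReal (s / 2) + ENNReal.ofReal (s + s / 2) := by
      rw [← ENNReal.ofReal_add (by positivity) (by positivity)]
      congr 1
      ring
    have h4 : ENNReal.ofReal (s / 2) + ENNReal.ofReal (s + s / 2) ≤
        volume G + ENNReal.ofReal (s + s / 2) := by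
      rw [← h3]
      exact h1.trans (add_le_add le_rfl h2)
    exact (ENNReal.add_le_add_iff_right ENNReal.ofReal_ne_top).1 h4
  have hGpos : volume G ≠ 0 := by
    intro h
    rw [h] at hGvol
    have := ENNReal.ofReal_pos.2 (half_pos hs)
    exact absurd hGvol (not_le.2 this)
  have hGfin : volume G ≠ ∞ := by
    have : volume G ≤ volume (Set.Icc (-s) s) := measure_mono Set.sdiff_subset
    rw [Real.volume_Icc] at this
    exact (this.trans_lt ENNReal.ofReal_lt_top).ne
  -- the linear functional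
  set g : ℝ → ℝ≥0∞ := fun x => ∑ k ∈ U, ENNReal.ofReal (2 * a k) * l k x with hg
  have hgm : Measurable g := Finset.measurable_sum _ fun k _ => (hlm k).const_mul _
  have hgint : ∫⁻ x in G, g x ≤ ENNReal.ofReal (∑ k ∈ U, 2 * a k * b k) := by
    refine (setLIntegral_le_lintegral _ _).trans ?_
    rw [hg, lintegral_finsetSum _ fun k _ => (hlm k).const_mul _,
      ENNReal.ofReal_sum_of_nonneg fun k hk => mul_nonneg (mul_nonneg zero_le_two (ha k hk)) (hb k)]
    refine Finset.sum_le_sum fun k hk => ?_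
    rw [lintegral_const_mul _ (hlm k), hlint k,
      ENNReal.ofReal_mul (mul_nonneg zero_le_two (ha k hk))]
    exact mul_le_mul_right (hSb k hk) _
  obtain ⟨x, hxG, hx⟩ := exists_le_setLAverage hGpos hGfin hgm.aemeasurable.restrict
  have hxE : R x < ENNReal.ofReal ρ := by
    by_contra h
    exact hxG.2 (Or.inr (not_lt.1 h))
  have hlx : ∀ k ∈ U, l k x ≠ ∞ := by
    intro k hk h
    have h1 : l k x ≤ R x := Finset.single_le_sum (f := fun k => l k x) (fun _ _ => bot_le) hk
    rw [h] at h1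
    exact absurd (h1.trans_lt hxE) (by simp)
  refine ⟨x, fun k => (l k x).toReal, ?_, fun h => hxG.2 (Or.inl h), fun k => ENNReal.toReal_nonneg,
    ?_, ?_, ?_⟩
  · have h1 := hxG.1.1
    have h2 := hxG.1.2
    nlinarith
  · intro k hk
    rw [ENNReal.ofReal_toReal (hlx k hk)]
  · have h1 : ∑ k ∈ U, (l k x).toReal ≤ ρ := by
      rw [← ENNReal.toReal_sum hlx]
      exact ENNReal.toReal_le_of_le_ofReal hρ0.le hxE.le
    have h2 : ∑ k ∈ U, (l k x).toReal ^ 2 ≤ (∑ k ∈ U, (l k x).toReal) ^ 2 :=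
      Finset.sum_sq_le_sq_sum_of_nonneg fun k _ => ENNReal.toReal_nonneg
    refine h2.trans ?_
    exact pow_le_pow_left₀ (Finset.sum_nonneg fun k _ => ENNReal.toReal_nonneg) h1 2
  · have h1 : g x ≤ ENNReal.ofReal ((2 / s) * ∑ k ∈ U, 2 * a k * b k) := by
      refine hx.trans ?_
      rw [setLAverage_eq]
      have hnn : 0 ≤ ∑ k ∈ U, 2 * a k * b k :=
        Finset.sum_nonneg fun k hk => mul_nonneg (mul_nonneg zero_le_two (ha k hk)) (hb k)
      calc (∫⁻ x in G, g x) / volume G
          ≤ ENNReal.ofReal (∑ k ∈ U, 2 * a k * b k) / ENNReal.ofReal (s / 2) :=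
            ENNReal.div_le_div hgint hGvol
        _ = ENNReal.ofReal ((2 / s) * ∑ k ∈ U, 2 * a k * b k) := by
            rw [← ENNReal.ofReal_div_of_pos (half_pos hs)]
            congr 1
            field_simp
    have hnn : 0 ≤ (2 / s) * ∑ k ∈ U, 2 * a k * b k :=
      mul_nonneg (by positivity) (Finset.sum_nonneg fun k hk =>
        mul_nonneg (mul_nonneg zero_le_two (ha k hk)) (hb k))
    have h2 : ∑ k ∈ U, 2 * a k * (l k x).toReal = (g x).toReal := by
      rw [hg]
      simp only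
      rw [ENNReal.toReal_sum (fun k hk => ENNReal.mul_ne_top ENNReal.ofReal_ne_top (hlx k hk))]
      refine Finset.sum_congr rfl fun k hk => ?_
      rw [ENNReal.toReal_mul, ENNReal.toReal_ofReal (mul_nonneg zero_le_two (ha k hk))]
    rw [h2]
    exact ENNReal.toReal_le_of_le_ofReal hnn h1

/-- the induction: `U` is the set of the coordinates still to be chosen, `D k` is the set forbidden for the
coordinate `k` by the coordinates chosen before -/
lemma main_ind (A : ι → ι → Set (ℝ × ℝ)) (hA : ∀ j k, MeasurableSet (A j k))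
    (hsym : ∀ j k, ∀ x y : ℝ, (x, y) ∈ A j k → (y, x) ∈ A k j)
    (b : ι → ι → ℝ) (hb : ∀ j k, 0 ≤ b j k) (hbs : ∀ j k, b j k = b k j)
    (hAb : ∀ j k, j ≠ k → volume (A j k) ≤ ENNReal.ofReal (b j k))
    (β : ι → ℝ) (hβ : ∀ k, 0 < β k) (hbβ : ∀ j, ∑ k, b j k ≤ β j) :
    ∀ (n : ℕ) (U : Finset ι), U.card = n → ∀ (D : ι → Set ℝ) (L : ι → ℝ),
      (∀ k, MeasurableSet (D k)) → (∀ k ∈ U, 0 ≤ L k) →
      (∀ k ∈ U, volume (D k) ≤ ENNReal.ofReal (L k)) →
      ∃ x : ι → ℝ, (∀ k ∈ U, x k ∉ D k) ∧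
        (∀ j ∈ U, ∀ k ∈ U, j ≠ k → (x j, x k) ∉ A j k) ∧
        ∑ k ∈ U, x k ^ 2 ≤ ∑ k ∈ U, 3 * β k +
          ∑ k ∈ U, (L k + 2 / Real.sqrt (3 * β k) * ∑ i ∈ U.erase k, b i k) ^ 2 +
          ∑ k ∈ U, 4 / 3 * β k := by
  intro n
  induction n with
  | zero =>
    intro U hU D L _ _ _
    rw [Finset.card_eq_zero] at hU
    subst hU
    exact ⟨fun _ => 0, by simp, by simp, by simp⟩
  | succ n ih =>
    intro U hU D L hD hL hDL
    have hne : U.Nonempty := by
      rw [← Finset.card_pos]; omega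
    obtain ⟨j, hj, hjmax⟩ := Finset.exists_max_image U β hne
    set s : ι → ℝ := fun k => Real.sqrt (3 * β k) with hs
    have hs0 : ∀ k, 0 < s k := fun k => Real.sqrt_pos.2 (by have := hβ k; positivity)
    have hssq : ∀ k, s k ^ 2 = 3 * β k := fun k =>
      Real.sq_sqrt (by have := hβ k; positivity)
    have hsmax : ∀ k ∈ U, s k ≤ s j := fun k hk =>
      Real.sqrt_le_sqrt (by have := hjmax k hk; linarith)
    set U' := U.erase j with hU'
    have hcard : U'.card = n := by
      rw [hU', Finset.card_erase_of_mem hj, hU]; rfl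
    -- the scale of the coordinate `j`
    set t : ℝ := max (s j) (L j) with ht
    have ht0 : 0 < t := lt_of_lt_of_le (hs0 j) (le_max_left _ _)
    have htsq : t ^ 2 ≤ s j ^ 2 + L j ^ 2 := by
      rcases max_choice (s j) (L j) with h | h
      · rw [ht, h]; nlinarith [sq_nonneg (L j)]
      · rw [ht, h]; nlinarith [sq_nonneg (s j)]
    set M' : ι → ℝ := fun k => 2 / s k * ∑ i ∈ U'.erase k, b i k with hM'
    have hM'0 : ∀ k, 0 ≤ M' k := fun k =>
      mul_nonneg (div_nonneg zero_le_two (hs0 k).le) (Finset.sum_nonneg fun i _ => hb i k)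
    obtain ⟨x, f, hx1, hx2, hf0, hf1, hf2, hf3⟩ := choose_one U' (fun k => A j k) (fun k => hA j k)
      (fun k => b j k) (fun k => hb j k)
      (fun k hk => hAb j k (Ne.symm (Finset.ne_of_mem_erase hk))) (β j) (hβ j)
      ((Finset.sum_le_univ_sum_of_nonneg (fun k => hb j k)).trans (hbβ j))
      (D j) (hD j) t ht0 ((hDL j hj).trans (ENNReal.ofReal_le_ofReal (le_max_right _ _)))
      (fun k => L k + M' k)
      (fun k hk => add_nonneg (hL k (Finset.mem_of_mem_erase hk)) (hM'0 k))
    obtain ⟨y, hy1, hy2, hy3⟩ := ih U' hcard (fun k => D k ∪ Prod.mk x ⁻¹' (A j k))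
      (fun k => L k + f k)
      (fun k => (hD k).union (measurable_prodMk_left (hA j k)))
      (fun k hk => add_nonneg (hL k (Finset.mem_of_mem_erase hk)) (hf0 k))
      (fun k hk => by
        refine (measure_union_le _ _).trans ?_
        rw [ENNReal.ofReal_add (hL k (Finset.mem_of_mem_erase hk)) (hf0 k)]
        exact add_le_add (hDL k (Finset.mem_of_mem_erase hk)) (hf1 k hk))
    refine ⟨Function.update y j x, ?_, ?_, ?_⟩
    · intro k hk
      by_cases hkj : k = j
      · subst hkj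
        rw [Function.update_self]
        exact hx2
      · rw [Function.update_of_ne hkj]
        intro h
        exact hy1 k (Finset.mem_erase.2 ⟨hkj, hk⟩) (Or.inl h)
    · intro p hp q hq hpq
      by_cases hpj : p = j
      · subst hpj
        rw [Function.update_self, Function.update_of_ne (Ne.symm hpq)]
        intro h
        exact hy1 q (Finset.mem_erase.2 ⟨Ne.symm hpq, hq⟩) (Or.inr h)
      · by_cases hqj : q = j
        · subst hqj
          rw [Function.update_self, Function.update_of_ne hpj]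
          intro h
          exact hy1 p (Finset.mem_erase.2 ⟨hpj, hp⟩) (Or.inr (hsym _ _ _ _ h))
        · rw [Function.update_of_ne hpj, Function.update_of_ne hqj]
          exact hy2 p (Finset.mem_erase.2 ⟨hpj, hp⟩) q (Finset.mem_erase.2 ⟨hqj, hq⟩) hpq
    · have hsum : ∀ F : ι → ℝ, ∑ k ∈ U, F k = F j + ∑ k ∈ U', F k := fun F =>
        (Finset.add_sum_erase U F hj).symm
      have hupd : ∑ k ∈ U, Function.update y j x k ^ 2 = x ^ 2 + ∑ k ∈ U', y k ^ 2 := by
        rw [hsum, Function.update_self]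
        congr 1
        refine Finset.sum_congr rfl fun k hk => ?_
        rw [Function.update_of_ne (Finset.ne_of_mem_erase hk)]
      rw [hupd, hsum (fun k => 3 * β k), hsum (fun k => 4 / 3 * β k),
        hsum (fun k => (L k + 2 / Real.sqrt (3 * β k) * ∑ i ∈ U.erase k, b i k) ^ 2)]
      -- the term of `j`
      have e1 : x ^ 2 ≤ 3 * β j + (L j + 2 / Real.sqrt (3 * β j) * ∑ i ∈ U.erase j, b i j) ^ 2 := by
        have h1 : 0 ≤ 2 / Real.sqrt (3 * β j) * ∑ i ∈ U.erase j, b i j :=
          mul_nonneg (by positivity) (Finset.sum_nonneg fun i _ => hb i j)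
        have h2 := hL j hj
        have h3 : x ^ 2 ≤ 3 * β j + L j ^ 2 := by
          rw [← hssq j]
          exact hx1.trans htsq
        nlinarith
      -- the terms of the other coordinates
      have e2 : ∑ k ∈ U', (L k + f k + M' k) ^ 2 ≤
          ∑ k ∈ U', (L k + 2 / Real.sqrt (3 * β k) * ∑ i ∈ U.erase k, b i k) ^ 2 +
            4 / 3 * β j := by
        have h1 : ∀ k ∈ U', 2 / Real.sqrt (3 * β k) * ∑ i ∈ U.erase k, b i k =
            M' k + 2 * b j k / s k := by
          intro k hk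
          have hjk : j ∈ U.erase k := Finset.mem_erase.2 ⟨Ne.symm (Finset.ne_of_mem_erase hk), hj⟩
          rw [← Finset.add_sum_erase _ _ hjk, Finset.erase_right_comm]
          show 2 / s k * (b j k + ∑ i ∈ U'.erase k, b i k) = _
          rw [hM']
          ring
        have h2 : ∑ k ∈ U', (L k + f k + M' k) ^ 2 =
            ∑ k ∈ U', (L k + M' k) ^ 2 + ∑ k ∈ U', 2 * (L k + M' k) * f k +
              ∑ k ∈ U', f k ^ 2 := by
          rw [← Finset.sum_add_distrib, ← Finset.sum_add_distrib]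
          refine Finset.sum_congr rfl fun k _ => ?_
          ring
        have h3 : (2 * β j / t) ^ 2 ≤ 4 / 3 * β j := by
          have h4 : (2 * β j / t) ^ 2 ≤ (2 * β j / s j) ^ 2 := by
            refine pow_le_pow_left₀ (div_nonneg (by have := hβ j; positivity) ht0.le) ?_ 2
            exact div_le_div_of_nonneg_left (by have := hβ j; positivity) (hs0 j) (le_max_left _ _)
          refine h4.trans (le_of_eq ?_)
          rw [div_pow, hssq j]
          have := hβ j
          field_simp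
          ring
        have h5 : (2 / t) * ∑ k ∈ U', 2 * (L k + M' k) * b j k ≤
            ∑ k ∈ U', 2 * (L k + M' k) * (2 * b j k / s k) := by
          rw [Finset.mul_sum]
          refine Finset.sum_le_sum fun k hk => ?_
          have hkU := Finset.mem_of_mem_erase hk
          have h6 : 0 ≤ 2 * (L k + M' k) * b j k :=
            mul_nonneg (mul_nonneg zero_le_two (add_nonneg (hL k hkU) (hM'0 k))) (hb j k)
          have h7 : 2 / t ≤ 2 / s k :=
            div_le_div_of_nonneg_left zero_le_two (hs0 k) ((hsmax k hkU).trans (le_max_left _ _))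
          calc 2 / t * (2 * (L k + M' k) * b j k) ≤ 2 / s k * (2 * (L k + M' k) * b j k) :=
                mul_le_mul_of_nonneg_right h7 h6
            _ = 2 * (L k + M' k) * (2 * b j k / s k) := by ring
        have h8 : ∑ k ∈ U', (L k + M' k) ^ 2 + ∑ k ∈ U', 2 * (L k + M' k) * (2 * b j k / s k) ≤
            ∑ k ∈ U', (L k + 2 / Real.sqrt (3 * β k) * ∑ i ∈ U.erase k, b i k) ^ 2 := by
          rw [← Finset.sum_add_distrib]
          refine Finset.sum_le_sum fun k hk => ?_
          rw [h1 k hk]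
          nlinarith [sq_nonneg (2 * b j k / s k)]
        rw [h2]
        linarith
      have e3 : ∑ k ∈ U', (L k + f k + 2 / Real.sqrt (3 * β k) * ∑ i ∈ U'.erase k, b i k) ^ 2 =
          ∑ k ∈ U', (L k + f k + M' k) ^ 2 := rfl
      rw [e3] at hy3
      linarith

/-- the choice of all coordinates -/
theorem choose_all (A : ι → ι → Set (ℝ × ℝ)) (hA : ∀ j k, MeasurableSet (A j k))
    (hsym : ∀ j k, ∀ x y : ℝ, (x, y) ∈ A j k → (y, x) ∈ A k j)
    (b : ι → ι → ℝ) (hb : ∀ j k, 0 ≤ b j k) (hbs : ∀ j k, b j k = b k j)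
    (hAb : ∀ j k, j ≠ k → volume (A j k) ≤ ENNReal.ofReal (b j k))
    (hsmall : ∑ j, ∑ k, b j k < 3 / 17) :
    ∃ x : ι → ℝ, (∀ j k, j ≠ k → (x j, x k) ∉ A j k) ∧ ∑ k, x k ^ 2 < 1 := by
  set S : ℝ := ∑ j, ∑ k, b j k with hS
  set η : ℝ := (3 / 17 - S) / (2 * (Fintype.card ι + 1)) with hη
  have hη0 : 0 < η := div_pos (by linarith) (by positivity)
  set β : ι → ℝ := fun j => ∑ k, b j k + η with hβ
  have hβ0 : ∀ k, 0 < β k := fun k =>
    add_pos_of_nonneg_of_pos (Finset.sum_nonneg fun i _ => hb k i) hη0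
  obtain ⟨x, -, hx2, hx3⟩ := main_ind A hA hsym b hb hbs hAb β hβ0 (fun j => by
    rw [hβ]; linarith) (Fintype.card ι) univ rfl (fun _ => ∅) (fun _ => 0)
    (fun _ => MeasurableSet.empty) (fun _ _ => le_rfl) (fun _ _ => by simp)
  refine ⟨x, fun j k hjk => hx2 j (Finset.mem_univ j) k (Finset.mem_univ k) hjk, ?_⟩
  refine hx3.trans_lt ?_
  have h1 : ∑ k, (0 + 2 / Real.sqrt (3 * β k) * ∑ i ∈ univ.erase k, b i k) ^ 2 ≤
      ∑ k, 4 / 3 * β k := by
    refine Finset.sum_le_sum fun k _ => ?_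
    have h2 : ∑ i ∈ univ.erase k, b i k ≤ β k := by
      have h3 : ∑ i ∈ univ.erase k, b i k ≤ ∑ i, b i k :=
        Finset.sum_le_sum_of_subset_of_nonneg (Finset.erase_subset _ _) fun i _ _ => hb i k
      have h4 : ∑ i, b i k = ∑ i, b k i := Finset.sum_congr rfl fun i _ => hbs i k
      rw [hβ]
      linarith
    have h5 : 0 ≤ ∑ i ∈ univ.erase k, b i k := Finset.sum_nonneg fun i _ => hb i k
    have h6 := hβ0 k
    rw [zero_add, mul_pow, div_pow, Real.sq_sqrt (by positivity)]
    calc 2 ^ 2 / (3 * β k) * (∑ i ∈ univ.erase k, b i k) ^ 2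
        ≤ 2 ^ 2 / (3 * β k) * (β k) ^ 2 :=
          mul_le_mul_of_nonneg_left (pow_le_pow_left₀ h5 h2 2) (by positivity)
      _ = 4 / 3 * β k := by field_simp; ring
  have h7 : ∑ k, β k = S + Fintype.card ι * η := by
    rw [hβ, Finset.sum_add_distrib, Finset.sum_const, Finset.card_univ, nsmul_eq_mul]
  have h8 : (Fintype.card ι : ℝ) * η < (3 / 17 - S) / 1 := by
    rw [hη, div_one]
    have h9 : (0 : ℝ) ≤ Fintype.card ι := by positivity
    have h10 : 0 < 3 / 17 - S := by linarith
    rw [mul_div_assoc', div_lt_iff₀ (by positivity)]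
    nlinarith
  have h11 : ∑ k, 3 * β k = 3 * ∑ k, β k := by rw [Finset.mul_sum]
  have h12 : ∑ k, 4 / 3 * β k = 4 / 3 * ∑ k, β k := by rw [Finset.mul_sum]
  rw [h11, h12]
  rw [h12] at h1
  rw [h7] at h1 ⊢
  linarith

end Pool.Agent.H168.CY
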